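import Pool.Agent.Lib.MP_02e52a_al.Fin.Conv

/-!
# The classification in terms of matrices
-/

namespace MP_02e52a.Fin

open MP_02e52a

/-- `G` is a special group of order `p ^ 7` with centre of order `p ^ 3` whose automorphism group is elementary
abelian of order `p ^ 12` (apart from commutativity). -/
def Props (p : ℕ) (G : Type*) [Group G] : Prop :=
  Nat.card G = p ^ 7 ∧ commutator G = Subgroup.center G ∧ Nat.card (Subgroup.center G) = p ^ 3 ∧
    (∀ g : G, g ^ p ∈ Subgroup.center G) ∧ (∀ z ∈ Subgroup.center G, z ^ p = 1) ∧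
    (∀ a : MulAut G, a ^ p = 1) ∧ Nat.card (MulAut G) = p ^ 12

theorem map_center {G H : Type*} [Group G] [Group H] (e : G ≃* H) :
    (Subgroup.center G).map e.toMonoidHom = Subgroup.center H := by
  ext y
  constructor
  · rintro ⟨x, hx, rfl⟩
    rw [Subgroup.mem_center_iff]
    intro h
    obtain ⟨g, rfl⟩ := e.surjective h
    have := (Subgroup.mem_center_iff.1 hx) g
    change e g * e x = e x * e g
    rw [← map_mul, ← map_mul, this]
  · intro hy
    refine ⟨e.symm y, ?_, e.apply_symm_apply y⟩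
    rw [SetLike.mem_coe, Subgroup.mem_center_iff]
    intro g
    apply e.injective
    rw [map_mul, map_mul, e.apply_symm_apply]
    exact (Subgroup.mem_center_iff.1 hy) (e g)

theorem map_comm {G H : Type*} [Group G] [Group H] (e : G ≃* H) :
    (commutator G).map e.toMonoidHom = commutator H := by
  rw [commutator_def, commutator_def, Subgroup.map_commutator]
  have : (⊤ : Subgroup G).map e.toMonoidHom = ⊤ := by
    rw [Subgroup.map_top_of_surjective]
    exact e.surjective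
  rw [this]

theorem Props.congr {p : ℕ} {G H : Type*} [Group G] [Group H] (e : G ≃* H) (h : Props p G) : Props p H := by
  obtain ⟨h1, h2, h3, h4, h5, h6, h7⟩ := h
  refine ⟨?_, ?_, ?_, ?_, ?_, ?_, ?_⟩
  · rw [← h1]; exact (Nat.card_congr e.toEquiv).symm
  · rw [← map_comm e, ← map_center e, h2]
  · rw [← map_center e, ← h3]
    exact (Nat.card_congr ((Subgroup.center G).equivMapOfInjective e.toMonoidHom e.injective).toEquiv).symm
  · intro g
    obtain ⟨x, rfl⟩ := e.surjective g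
    rw [← map_center e, ← map_pow]
    exact ⟨_, h4 x, rfl⟩
  · intro z hz
    rw [← map_center e] at hz
    obtain ⟨x, hx, rfl⟩ := hz
    change (e x) ^ p = 1
    rw [← map_pow, h5 x hx, map_one]
  · intro a
    obtain ⟨b, rfl⟩ := (MulAut.congr e).surjective a
    rw [← map_pow, h6, map_one]
  · rw [← h7]; exact (Nat.card_congr (MulAut.congr e).toEquiv).symm

variable {p : ℕ} [Fact p.Prime]

theorem class1 (hp : p ≠ 2) (ν : ZMod p) (hν : ¬ IsSquare ν) (G : Type*) [Group G] (hG : Nat.card G = p ^ 7) :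
    ((¬ ∀ x y : G, x * y = y * x) ∧ ∀ a b : MulAut G, a * b = b * a) ↔
      ∃ x : Par p, x.Ok ∧ Nonempty (G ≃* x.G ν) := by
  have h := M7.classification hp ν hν G hG
  constructor
  · intro h'
    obtain ⟨x, hx, ⟨e⟩⟩ := h.1 h'
    obtain ⟨y, rfl⟩ := conv_surj x
    exact ⟨y, (ok_iff y).2 hx, ⟨e.trans (grpE ν y).symm⟩⟩
  · rintro ⟨y, hy, ⟨e⟩⟩
    exact h.2 ⟨conv y, (ok_iff y).1 hy, ⟨e.trans (grpE ν y)⟩⟩

theorem iso1 (hp : p ≠ 2) (ν : ZMod p) (hν : ¬ IsSquare ν) (x y : Par p) (hx : x.Ok) (hy : y.Ok) :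
    Nonempty (x.G ν ≃* y.G ν) ↔ x.Rel y := by
  rw [rel_iff x y hx hy, ← M7.iso_iff hp ν hν (conv x) (conv y) ((ok_iff x).1 hx) ((ok_iff y).1 hy)]
  constructor
  · rintro ⟨e⟩
    exact ⟨((grpE ν x).symm.trans e).trans (grpE ν y)⟩
  · rintro ⟨e⟩
    exact ⟨((grpE ν x).trans e).trans (grpE ν y).symm⟩

theorem props1 (hp : p ≠ 2) (ν : ZMod p) (hν : ¬ IsSquare ν) (x : Par p) (hx : x.Ok) : Props p (x.G ν) := by
  refine Props.congr (grpE ν x).symm ?_
  have hx' := (ok_iff x).1 hx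
  obtain ⟨h1, h2, h3⟩ := M7.grp_props hp ν hν (conv x) hx'
  obtain ⟨h4, h5, h6, h7⟩ := M7.grp_special hp ((conv x).dat ν) ((conv x).onto ν) ((conv x).nondeg ν)
  exact ⟨h1, h4, h5, h6, h7, h2, h3⟩

end MP_02e52a.Fin
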