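import Pool.Agent.Lib.MP_02e52a_al.Fin.Par
import Pool.Agent.Lib.MP_02e52a_al.M7.Fin4

/-!
# Comparison of the two descriptions of the parameters
-/

namespace MP_02e52a.Fin

open MP_02e52a

variable {p : ℕ} [Fact p.Prime]

/-- conversion -/
def conv : Par p → M7.Par p
  | .M P => .M P.mulVecLin
  | .F A => .F A
  | .D α ε φ => .D α ε φ
  | .H1 a b c d => .H1 a b c d
  | .H2 a b c d => .H2 a b c d
  | .H3 a b c d s t u => .H3 a b c d s t u

theorem Dat_ext {d d' : M7.Dat p} (h1 : d.β = d'.β) (h2 : d.π = d'.π) : d = d' := by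
  cases d; cases d'; simp at h1 h2; simp [h1, h2]

theorem datOf_conv (ν : ZMod p) (x : Par p) : datOf (x.B ν) x.P = (conv x).dat ν := by
  cases x with
  | M P =>
    apply Dat_ext
    · refine LinearMap.ext fun x => LinearMap.ext fun y => ?_
      funext i
      fin_cases i <;>
        simp [datOf, conv, M7.Par.dat, M7.datM, Par.B, wedge] <;> ring
    · rfl
  | F A =>
    apply Dat_ext
    · refine LinearMap.ext fun x => LinearMap.ext fun y => ?_
      funext i
      fin_cases i <;>
        simp [datOf, conv, M7.Par.dat, M7.datK, Par.B, wedge] <;> ring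
    · rfl
  | D α ε φ =>
    apply Dat_ext
    · refine LinearMap.ext fun x => LinearMap.ext fun y => ?_
      funext i
      fin_cases i <;>
        simp [datOf, conv, M7.Par.dat, M7.datK, Par.B, wedge]
    · rfl
  | H1 a b c d =>
    apply Dat_ext
    · refine LinearMap.ext fun x => LinearMap.ext fun y => ?_
      funext i
      fin_cases i <;>
        simp [datOf, conv, M7.Par.dat, M7.datH, Par.B, wedge]
    · rfl
  | H2 a b c d =>
    apply Dat_ext
    · refine LinearMap.ext fun x => LinearMap.ext fun y => ?_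
      funext i
      fin_cases i <;>
        simp [datOf, conv, M7.Par.dat, M7.datH, Par.B, wedge]
    · rfl
  | H3 a b c d s t u =>
    apply Dat_ext
    · refine LinearMap.ext fun x => LinearMap.ext fun y => ?_
      funext i
      fin_cases i <;>
        simp [datOf, conv, M7.Par.dat, M7.datH, Par.B, wedge]
    · rfl

/-- the two descriptions of the group -/
noncomputable def grpE (ν : ZMod p) (x : Par p) : x.G ν ≃* M7.Grp ((conv x).dat ν) :=
  (toGrpE (B := x.B ν) (P := x.P)).trans (by rw [datOf_conv])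

theorem TM_zero (P : Matrix (Fin 3) (Fin 4) (ZMod p)) : M7.TM P.mulVecLin 0 = ev P := by
  ext k i
  have : M7.TM P.mulVecLin 0 k i = P k (finProdFinEquiv (i, (0 : Fin 2))) := by
    unfold M7.TM
    rw [Matrix.mulVecLin_apply, Matrix.mulVec_single_one]
    rfl
  rw [this]
  fin_cases k <;> fin_cases i <;> rfl

theorem TM_one (P : Matrix (Fin 3) (Fin 4) (ZMod p)) : M7.TM P.mulVecLin 1 = od P := by
  ext k i
  have : M7.TM P.mulVecLin 1 k i = P k (finProdFinEquiv (i, (1 : Fin 2))) := by
    unfold M7.TM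
    rw [Matrix.mulVecLin_apply, Matrix.mulVec_single_one]
    rfl
  rw [this]
  fin_cases k <;> fin_cases i <;> rfl

theorem planeM_eq (P : Matrix (Fin 3) (Fin 4) (ZMod p)) :
    M7.planeM P.mulVecLin = Submodule.span (ZMod p) {ev P, od P} := by
  unfold M7.planeM
  congr 1
  ext T
  constructor
  · rintro ⟨j, rfl⟩
    fin_cases j
    · left; exact TM_zero P
    · right; exact TM_one P
  · rintro (rfl | rfl)
    · exact ⟨0, TM_zero P⟩
    · exact ⟨1, TM_one P⟩

theorem sym2_eq (a : Matrix (Fin 2) (Fin 2) (ZMod p)) : sym2 a = M7.sq a := rfl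

theorem indep_iff (P : Matrix (Fin 3) (Fin 4) (ZMod p)) :
    LinearIndependent (ZMod p) (M7.TM P.mulVecLin) ↔ ∀ x y : ZMod p, x • ev P + y • od P = 0 → x = 0 ∧ y = 0 := by
  have : M7.TM P.mulVecLin = ![ev P, od P] := by
    funext j
    fin_cases j
    · exact TM_zero P
    · exact TM_one P
  rw [this, LinearIndependent.pair_iff]

theorem Maps_iff_le (a : Matrix (Fin 2) (Fin 2) (ZMod p)) (P P' : Matrix (Fin 3) (Fin 4) (ZMod p)) :
    Maps a P P' ↔ (M7.planeM P.mulVecLin).map (M7.actM a) ≤ M7.planeM P'.mulVecLin := by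
  rw [planeM_eq, planeM_eq, Submodule.map_span, Submodule.span_le, Set.image_pair, Set.insert_subset_iff,
    Set.singleton_subset_iff, SetLike.mem_coe, SetLike.mem_coe, Submodule.mem_span_pair, Submodule.mem_span_pair]
  constructor
  · rintro ⟨x, y, z, t, h1, h2⟩
    exact ⟨⟨x, y, h1.symm⟩, ⟨z, t, h2.symm⟩⟩
  · rintro ⟨⟨x, y, h1⟩, ⟨z, t, h2⟩⟩
    exact ⟨x, y, z, t, h1.symm, h2.symm⟩

theorem actM_inj' (a : Matrix (Fin 2) (Fin 2) (ZMod p)) (ha : a.det ≠ 0) : Function.Injective (M7.actM a) := by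
  have key : ∀ x : Matrix (Fin 3) (Fin 2) (ZMod p), M7.actM a.adjugate (M7.actM a x) = a.det ^ 3 • x := by
    intro x
    change M7.sq a.adjugate * (M7.sq a * x * a.adjugate) * a.adjugate.adjugate = _
    have h1 : M7.sq a.adjugate * M7.sq a = a.det ^ 2 • 1 := by
      ext i j
      fin_cases i <;> fin_cases j <;>
        simp [M7.sq, Matrix.adjugate_fin_two, Matrix.det_fin_two, Matrix.mul_apply, Fin.sum_univ_succ] <;> ring
    have h2 : a.adjugate * a.adjugate.adjugate = a.det • 1 := by
      rw [Matrix.mul_adjugate, Matrix.det_adjugate]; simp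
    calc M7.sq a.adjugate * (M7.sq a * x * a.adjugate) * a.adjugate.adjugate =
        (M7.sq a.adjugate * M7.sq a) * x * (a.adjugate * a.adjugate.adjugate) := by
          simp only [Matrix.mul_assoc]
      _ = a.det ^ 3 • x := by
          rw [h1, h2]
          simp [smul_smul]
          ring_nf
  intro x y h
  have := congrArg (M7.actM a.adjugate) h
  rw [key, key] at this
  exact smul_right_injective _ (pow_ne_zero 3 ha) this

theorem Maps_iff (a : Matrix (Fin 2) (Fin 2) (ZMod p)) (ha : a.det ≠ 0) (P P' : Matrix (Fin 3) (Fin 4) (ZMod p))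
    (h : LinearIndependent (ZMod p) (M7.TM P.mulVecLin)) (h' : LinearIndependent (ZMod p) (M7.TM P'.mulVecLin)) :
    Maps a P P' ↔ (M7.planeM P.mulVecLin).map (M7.actM a) = M7.planeM P'.mulVecLin := by
  rw [Maps_iff_le]
  constructor
  · intro hle
    refine Submodule.eq_of_le_of_finrank_eq hle ?_
    rw [← (Submodule.equivMapOfInjective (M7.actM a) (actM_inj' a ha) (M7.planeM P.mulVecLin)).finrank_eq]
    unfold M7.planeM
    rw [finrank_span_eq_card h, finrank_span_eq_card h']
  · exact fun h => h.le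

theorem ok_iff (x : Par p) : x.Ok ↔ (conv x).Ok := by
  cases x with
  | M P =>
    simp only [Par.Ok, conv, M7.Par.Ok]
    rw [indep_iff]
    constructor
    · rintro ⟨h1, h2⟩
      exact ⟨h1, fun a ha h => h2 a ha ((Maps_iff a ha P P ((indep_iff P).2 h1) ((indep_iff P).2 h1)).2 h)⟩
    · rintro ⟨h1, h2⟩
      exact ⟨h1, fun a ha h => h2 a ha ((Maps_iff a ha P P ((indep_iff P).2 h1) ((indep_iff P).2 h1)).1 h)⟩
  | F A => rfl
  | D α ε φ => rfl
  | H1 a b c d => rfl
  | H2 a b c d => rfl
  | H3 a b c d s t u => rfl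

theorem rel_iff (x y : Par p) (hx : x.Ok) (hy : y.Ok) : x.Rel y ↔ (conv x).Rel (conv y) := by
  cases x with
  | M P =>
    cases y with
    | M P' =>
      simp only [Par.Rel, conv, M7.Par.Rel]
      have i1 := (indep_iff P).2 hx.1
      have i2 := (indep_iff P').2 hy.1
      constructor
      · rintro ⟨a, ha, h⟩
        exact ⟨a, ha, (Maps_iff a ha P P' i1 i2).1 h⟩
      · rintro ⟨a, ha, h⟩
        exact ⟨a, ha, (Maps_iff a ha P P' i1 i2).2 h⟩
    | _ => rfl
  | F A => cases y <;> rfl
  | D α ε φ => cases y <;> rfl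
  | H1 a b c d => cases y <;> rfl
  | H2 a b c d => cases y <;> rfl
  | H3 a b c d s t u => cases y <;> rfl

theorem conv_surj : Function.Surjective (conv : Par p → M7.Par p) := by
  intro x
  cases x with
  | M π =>
    refine ⟨.M (LinearMap.toMatrix' π), ?_⟩
    change M7.Par.M (LinearMap.toMatrix' π).mulVecLin = _
    congr 1
    exact Matrix.toLin'_toMatrix' π
  | F A => exact ⟨.F A, rfl⟩
  | D α ε φ => exact ⟨.D α ε φ, rfl⟩
  | H1 a b c d => exact ⟨.H1 a b c d, rfl⟩
  | H2 a b c d => exact ⟨.H2 a b c d, rfl⟩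
  | H3 a b c d s t u => exact ⟨.H3 a b c d s t u, rfl⟩

end MP_02e52a.Fin
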