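import Pool.Agent.Lib.MP_02e52a_al.Fin.Class
import Pool.Agent.Lib.MP_02e52a_al.Cnt.RG
import Pool.Agent.Lib.MP_02e52a_al.Cnt.OB
import Pool.Agent.Lib.MP_02e52a_al.Cnt.F1
import Pool.Agent.Lib.MP_02e52a_al.Cnt.F2
import Pool.Agent.Lib.MP_02e52a_al.Cnt.F3
import Pool.Agent.Lib.MP_02e52a_al.Cnt.F4
import Pool.Agent.Lib.MP_02e52a_al.Cnt.F5

/-!
# The number of groups
-/

namespace MP_02e52a.Fin

open MP_02e52a

variable {p : ℕ} [Fact p.Prime]

/-- a surjection compatible with two equivalence relations induces a bijection of the classes -/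
theorem card_quot_congr {X Y : Type*} (r : X → X → Prop) (s : Y → Y → Prop) (hs : Equivalence s)
    (f : X → Y) (hf : Function.Surjective f) (h : ∀ x x', r x x' ↔ s (f x) (f x')) :
    Nat.card (Quot r) = Nat.card (Quot s) := by
  refine Nat.card_congr (Equiv.ofBijective (Quot.map f fun a b hab => (h a b).1 hab) ⟨?_, ?_⟩)
  · intro a b
    induction a using Quot.ind with
    | mk a =>
      induction b using Quot.ind with
      | mk b =>
        intro hab
        change Quot.mk s (f a) = Quot.mk s (f b) at hab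
        rw [Quot.eq, hs.eqvGen_iff] at hab
        exact Quot.sound ((h a b).2 hab)
  · intro b
    induction b using Quot.ind with
    | mk b =>
      obtain ⟨a, rfl⟩ := hf b
      exact ⟨Quot.mk r a, rfl⟩

/-- the relation on the admissible parameters is an equivalence relation -/
theorem rel_equiv (hp : p ≠ 2) : Equivalence (fun x y : {x : Par p // x.Ok} => x.1.Rel y.1) := by
  obtain ⟨ν, hν⟩ : ∃ ν : ZMod p, ¬ IsSquare ν := by
    obtain ⟨a, ha⟩ := FiniteField.exists_nonsquare (F := ZMod p) (by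
      rw [ZMod.ringChar_zmod_n]; exact hp)
    exact ⟨a, ha⟩
  have key : ∀ x y : {x : Par p // x.Ok}, x.1.Rel y.1 ↔ Nonempty (x.1.G ν ≃* y.1.G ν) := fun x y =>
    (iso1 hp ν hν x.1 y.1 x.2 y.2).symm
  refine ⟨fun x => ?_, fun {x y} h => ?_, fun {x y z} h h' => ?_⟩
  · rw [key]; exact ⟨MulEquiv.refl _⟩
  · rw [key] at h ⊢
    exact h.map fun e => e.symm
  · rw [key] at h h' ⊢
    obtain ⟨e⟩ := h
    obtain ⟨e'⟩ := h'
    exact ⟨e.trans e'⟩

/-- pullback of the relation -/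
theorem rel_equiv_pull (hp : p ≠ 2) {T : Type*} (c : T → Par p) :
    Equivalence (fun x y : {x : T // (c x).Ok} => (c x.1).Rel (c y.1)) := by
  have h := rel_equiv (p := p) hp
  refine ⟨fun x => ?_, fun {x y} h1 => ?_, fun {x y z} h1 h2 => ?_⟩
  · exact h.refl ⟨c x.1, x.2⟩
  · exact h.symm (x := ⟨c x.1, x.2⟩) (y := ⟨c y.1, y.2⟩) h1
  · exact h.trans (x := ⟨c x.1, x.2⟩) (y := ⟨c y.1, y.2⟩) (z := ⟨c z.1, z.2⟩) h1 h2

/-- the number of classes of a family -/
noncomputable def num {T : Type*} (c : T → Par p) : ℕ :=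
  Nat.card (Quot fun x y : {x : T // (c x).Ok} => (c x.1).Rel (c y.1))

theorem num_mul (hp : p ≠ 2) {T : Type*} [Finite T] (c : T → Par p) (k : ℕ)
    (hk : ∀ x : {x : T // (c x).Ok}, Nat.card {y : {x : T // (c x).Ok} // (c x.1).Rel (c y.1)} = k) :
    Nat.card {x : T // (c x).Ok} = num c * k :=
  Cnt.card_quot _ (rel_equiv_pull hp c) k hk

/-! ### the families with scalar parameters -/

def cF (A : Matrix (Fin 2) (Fin 2) (ZMod p)) : Par p := .F A
def cD (v : Fin 3 → ZMod p) : Par p := .D (v 0) (v 1) (v 2)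
def cH1 (v : Fin 4 → ZMod p) : Par p := .H1 (v 0) (v 1) (v 2) (v 3)
def cH2 (v : Fin 4 → ZMod p) : Par p := .H2 (v 0) (v 1) (v 2) (v 3)
def cH3 (v : Fin 7 → ZMod p) : Par p := .H3 (v 0) (v 1) (v 2) (v 3) (v 4) (v 5) (v 6)
def cM (P : Matrix (Fin 3) (Fin 4) (ZMod p)) : Par p := .M P

theorem pp : 1 < p := (Fact.out : p.Prime).one_lt

theorem num_F (hp : p ≠ 2) : 2 * num (cF (p := p)) = p ^ 4 - p ^ 2 := by
  have h := num_mul hp (cF (p := p)) 2 (fun x => Cnt.clsF hp x.1 x.2)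
  have h2 : Nat.card {x : Matrix (Fin 2) (Fin 2) (ZMod p) // (cF x).Ok} = p ^ 4 - p ^ 2 := Cnt.cardF
  rw [h2] at h
  omega

theorem num_D (hp : p ≠ 2) : num (cD (p := p)) = p ^ 2 - 1 + if p % 3 = 1 then 0 else 1 := by
  have h := num_mul hp (cD (p := p)) (p - 1) (fun x => Cnt.clsD x.1 x.2)
  have h2 : Nat.card {x : Fin 3 → ZMod p // (cD x).Ok} = (p - 1) * (p ^ 2 - 1 + if p % 3 = 1 then 0 else 1) :=
    Cnt.cardD
  rw [h2, mul_comm] at h
  have := pp (p := p)
  exact (Nat.eq_of_mul_eq_mul_right (by omega) h).symm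

theorem num_H1 (hp : p ≠ 2) : 2 * num (cH1 (p := p)) = p ^ 4 - p ^ 2 := by
  have h := num_mul hp (cH1 (p := p)) 2 (fun x => Cnt.clsH1 x.1 x.2)
  have h2 : Nat.card {x : Fin 4 → ZMod p // (cH1 x).Ok} = p ^ 4 - p ^ 2 := Cnt.cardH1
  rw [h2] at h
  omega

theorem num_H2 (hp : p ≠ 2) : num (cH2 (p := p)) = (p + 1) * p ^ 2 := by
  have h := num_mul hp (cH2 (p := p)) (p - 1) (fun x => Cnt.clsH2 x.1 x.2)
  have h2 : Nat.card {x : Fin 4 → ZMod p // (cH2 x).Ok} = (p ^ 2 - 1) * p ^ 2 := Cnt.cardH2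
  rw [h2] at h
  have := pp (p := p)
  refine (Nat.eq_of_mul_eq_mul_right (show 0 < p - 1 by omega) ?_).symm
  rw [← h]
  have : p ^ 2 - 1 = (p + 1) * (p - 1) := by
    have h5 := Nat.sq_sub_sq p 1
    rwa [one_pow] at h5
  rw [this]; ring

theorem num_H3 (hp : p ≠ 2) : num (cH3 (p := p)) = p ^ 3 + 3 * p ^ 2 + 4 * p + 1 + if p % 3 = 1 then 0 else 1 := by
  have h := num_mul hp (cH3 (p := p)) ((p - 1) ^ 3 * p) (fun x => Cnt.clsH3 x.1 x.2)
  have h2 : Nat.card {x : Fin 7 → ZMod p // (cH3 x).Ok} =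
    p * (p - 1) ^ 3 * (p ^ 3 + 3 * p ^ 2 + 4 * p + 1 + if p % 3 = 1 then 0 else 1) := Cnt.cardH3 hp
  rw [h2] at h
  have := pp (p := p)
  have h3 : 0 < (p - 1) ^ 3 * p := Nat.mul_pos (pow_pos (by omega) 3) (by omega)
  refine (Nat.eq_of_mul_eq_mul_right h3 ?_).symm
  rw [← h]; ring

/-! ### the family of planes -/

/-- regular planes -/
abbrev RP (p : ℕ) [Fact p.Prime] := {P : Cnt.Gr p // Cnt.Rg P.1}

theorem rg_trG (a : Cnt.F2 p) (ha : a.det ≠ 0) (P : Cnt.Gr p) (h : Cnt.Rg P.1) : Cnt.Rg (Cnt.trG a ha P).1 := by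
  rw [Cnt.Rg_iff] at h ⊢
  intro b hb
  obtain ⟨c, rfl⟩ := Cnt.exists_cj a ha b
  have hc := h c ((Cnt.St_cj a ha P c).1 hb)
  obtain ⟨h1, h2, h3⟩ := hc
  have : c = c 0 0 • (1 : Cnt.F2 p) := by
    ext i j
    fin_cases i <;> fin_cases j <;> simp [h1, h2, h3]
  rw [this, Cnt.cj_smul, Cnt.cj_one a ha]
  exact ⟨by simp, by simp, by simp⟩

theorem mem_planeM (P : Matrix (Fin 3) (Fin 4) (ZMod p)) (h : (cM P).Ok) :
    Module.finrank (ZMod p) (M7.planeM P.mulVecLin) = 2 := by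
  have h' := (indep_iff P).2 h.1
  unfold M7.planeM
  rw [finrank_span_eq_card h', Fintype.card_fin]

/-- the plane of a matrix -/
noncomputable def toRP (P : {P : Matrix (Fin 3) (Fin 4) (ZMod p) // (cM P).Ok}) : RP p :=
  ⟨⟨M7.planeM P.1.mulVecLin, mem_planeM P.1 P.2⟩, by
    have h := (ok_iff (.M P.1)).1 P.2
    exact fun a ha h' => h.2 a ha h'⟩

theorem toRP_surj : Function.Surjective (toRP (p := p)) := by
  rintro ⟨⟨Q, hQ⟩, hR⟩
  obtain ⟨b, hb⟩ : ∃ b : Module.Basis (Fin 2) (ZMod p) Q, True :=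
    ⟨Module.finBasisOfFinrankEq (ZMod p) Q hQ, trivial⟩
  set P : Matrix (Fin 3) (Fin 4) (ZMod p) := fun k i =>
    (b (finProdFinEquiv.symm i : Fin 2 × Fin 2).2).1 k (finProdFinEquiv.symm i : Fin 2 × Fin 2).1 with hP
  have hev : ev P = (b 0).1 := by
    ext k i; fin_cases k <;> fin_cases i <;> rfl
  have hod : od P = (b 1).1 := by
    ext k i; fin_cases k <;> fin_cases i <;> rfl
  have hspan : M7.planeM P.mulVecLin = Q := by
    rw [planeM_eq, hev, hod]
    have h1 := congrArg (Submodule.map Q.subtype) b.span_eq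
    rw [Submodule.map_span, Submodule.map_top, Submodule.range_subtype] at h1
    refine Eq.trans ?_ h1
    congr 1
    ext T
    constructor
    · rintro (rfl | rfl)
      · exact ⟨b 0, ⟨0, rfl⟩, rfl⟩
      · exact ⟨b 1, ⟨1, rfl⟩, rfl⟩
    · rintro ⟨_, ⟨j, rfl⟩, rfl⟩
      fin_cases j
      · left; rfl
      · right; rfl
  have hind : LinearIndependent (ZMod p) (M7.TM P.mulVecLin) := by
    have h2 : M7.TM P.mulVecLin = Q.subtype ∘ b := by
      funext j
      fin_cases j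
      · exact (TM_zero P).trans hev
      · exact (TM_one P).trans hod
    rw [h2]
    exact b.linearIndependent.map' Q.subtype (Submodule.ker_subtype Q)
  have hok : (cM P).Ok := by
    rw [cM, ok_iff]
    refine ⟨hind, fun a ha h => ?_⟩
    rw [hspan] at h
    exact hR a ha h
  refine ⟨⟨P, hok⟩, ?_⟩
  apply Subtype.ext
  apply Subtype.ext
  exact hspan

/-- orbits of regular planes -/
def relP (x y : RP p) : Prop := ∃ a : Cnt.F2 p, a.det ≠ 0 ∧ x.1.1.map (M7.actM a) = y.1.1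

theorem relP_equiv : Equivalence (relP (p := p)) := by
  refine ⟨fun x => ⟨1, by simp, ?_⟩, ?_, ?_⟩
  · have : M7.actM (1 : Cnt.F2 p) = LinearMap.id := LinearMap.ext Cnt.actM_one
    rw [this, Submodule.map_id]
  · rintro x y ⟨a, ha, h⟩
    refine ⟨a.adjugate, by rw [Matrix.det_adjugate]; simpa using ha, ?_⟩
    rw [← h, ← Submodule.map_comp]
    have : (M7.actM a.adjugate) ∘ₗ (M7.actM a) = a.det ^ 3 • LinearMap.id :=
      LinearMap.ext (Cnt.actM_adj a)
    rw [this, Submodule.map_smul _ _ _ (pow_ne_zero 3 ha), Submodule.map_id]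
  · rintro x y z ⟨a, ha, h⟩ ⟨b, hb, h'⟩
    refine ⟨b * a, by rw [Matrix.det_mul]; exact mul_ne_zero hb ha, ?_⟩
    rw [← h', ← h, ← Submodule.map_comp]
    congr 1
    exact LinearMap.ext (Cnt.actM_mul b a)

theorem card_relP (x : RP p) : Nat.card {y : RP p // relP x y} = p * (p ^ 2 - 1) := by
  rw [← Cnt.card_orbit x.1 ((Cnt.Rg_iff x.1).1 x.2)]
  refine Nat.card_congr
    { toFun := fun y => ⟨y.1.1, y.2⟩
      invFun := fun y => ⟨⟨y.1, ?_⟩, y.2⟩
      left_inv := fun _ => rfl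
      right_inv := fun _ => rfl }
  obtain ⟨a, ha, h⟩ := y.2
  have : y.1 = Cnt.trG a ha x.1 := Subtype.ext h.symm
  rw [this]
  exact rg_trG a ha x.1 x.2

theorem num_M_eq (hp : p ≠ 2) : num (cM (p := p)) = Nat.card (Quot (relP (p := p))) := by
  unfold num
  refine card_quot_congr _ _ relP_equiv toRP toRP_surj fun x y => ?_
  have h := rel_iff (.M x.1) (.M y.1) x.2 y.2
  exact h

theorem num_M (hp : p ≠ 2) : 3 * num (cM (p := p)) =
    if p % 3 = 1 then 3 * p ^ 5 + 3 * p ^ 4 + 6 * p ^ 3 + 7 * p ^ 2 + p + 1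
      else 3 * p ^ 5 + 3 * p ^ 4 + 6 * p ^ 3 + 7 * p ^ 2 + 4 * p + 3 := by
  have h := Cnt.card_quot (relP (p := p)) relP_equiv _ card_relP
  have h2 := Cnt.card_Rg (p := p) hp
  rw [num_M_eq hp]
  have := pp (p := p)
  have h3 : 0 < p * (p ^ 2 - 1) := by
    refine Nat.mul_pos (by omega) ?_
    have : 1 < p ^ 2 := Nat.one_lt_pow (by norm_num) this
    omega
  rw [h] at h2
  refine Nat.eq_of_mul_eq_mul_right h3 ?_
  rw [mul_assoc, h2]; ring

end MP_02e52a.Fin
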