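import Mathlib

/-!
# The groups of order `p ^ 7`

`PG B P` is the group with generators `x_0, ..., x_3` (coordinates `v`) and central generators `z_0, z_1, z_2`
of order `p` (coordinates `w`), commutators `[x_i, x_j] = z ^ (B column ij)` and powers `x_i ^ p = z ^ (P column i)`.
-/

namespace MP_02e52a.Fin

/-- the six `2 × 2` minors of the matrix with rows `x`, `y`, in the order `01, 02, 03, 12, 13, 23` -/
def wedge {p : ℕ} (x y : Fin 4 → ZMod p) : Fin 6 → ZMod p :=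
  ![x 0 * y 1 - x 1 * y 0, x 0 * y 2 - x 2 * y 0, x 0 * y 3 - x 3 * y 0,
    x 1 * y 2 - x 2 * y 1, x 1 * y 3 - x 3 * y 1, x 2 * y 3 - x 3 * y 2]

/-- the carries of the addition of the representatives in `[0, p)` -/
def carry {p : ℕ} (x y : Fin 4 → ZMod p) : Fin 4 → ZMod p :=
  fun i => if p ≤ (x i).val + (y i).val then 1 else 0

/-- The group of the matrices `B`, `P`: pairs `(v, w)` with
`(v, w) (v', w') = (v + v', w + w' + B (v ∧ v') / 2 + P (carry v v'))`. -/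
@[ext]
structure PG (p : ℕ) (B : Matrix (Fin 3) (Fin 6) (ZMod p)) (P : Matrix (Fin 3) (Fin 4) (ZMod p)) where
  v : Fin 4 → ZMod p
  w : Fin 3 → ZMod p

namespace PG

variable {p : ℕ} {B : Matrix (Fin 3) (Fin 6) (ZMod p)} {P : Matrix (Fin 3) (Fin 4) (ZMod p)}

instance : Mul (PG p B P) :=
  ⟨fun x y => ⟨x.v + y.v, x.w + y.w + B.mulVec ((2 : ZMod p)⁻¹ • wedge x.v y.v) + P.mulVec (carry x.v y.v)⟩⟩

instance : One (PG p B P) := ⟨⟨0, 0⟩⟩

instance : Inv (PG p B P) := ⟨fun x => ⟨-x.v, -x.w - P.mulVec (carry x.v (-x.v))⟩⟩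

theorem mul_v (x y : PG p B P) : (x * y).v = x.v + y.v := rfl
theorem mul_w (x y : PG p B P) : (x * y).w =
    x.w + y.w + B.mulVec ((2 : ZMod p)⁻¹ • wedge x.v y.v) + P.mulVec (carry x.v y.v) := rfl
theorem one_v : (1 : PG p B P).v = 0 := rfl
theorem one_w : (1 : PG p B P).w = 0 := rfl
theorem inv_v (x : PG p B P) : (x⁻¹).v = -x.v := rfl
theorem inv_w (x : PG p B P) : (x⁻¹).w = -x.w - P.mulVec (carry x.v (-x.v)) := rfl

end PG

end MP_02e52a.Fin
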