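import Pool.Agent.Lib.MP_02e52a_al.Fin.Group
import Pool.Agent.Lib.MP_02e52a_al.M7.GrpDefs

/-!
# The group structure of `PG B P`
-/

namespace MP_02e52a.Fin

open MP_02e52a

variable {p : ℕ} [Fact p.Prime]

theorem wedge_add_left (x x' y : Fin 4 → ZMod p) : wedge (x + x') y = wedge x y + wedge x' y := by
  funext i; fin_cases i <;> simp [wedge] <;> ring

theorem wedge_add_right (x y y' : Fin 4 → ZMod p) : wedge x (y + y') = wedge x y + wedge x y' := by
  funext i; fin_cases i <;> simp [wedge] <;> ring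

theorem wedge_smul_left (c : ZMod p) (x y : Fin 4 → ZMod p) : wedge (c • x) y = c • wedge x y := by
  funext i; fin_cases i <;> simp [wedge] <;> ring

theorem wedge_smul_right (c : ZMod p) (x y : Fin 4 → ZMod p) : wedge x (c • y) = c • wedge x y := by
  funext i; fin_cases i <;> simp [wedge] <;> ring

theorem wedge_self (x : Fin 4 → ZMod p) : wedge x x = 0 := by
  funext i; fin_cases i <;> simp [wedge] <;> ring

/-- the datum of two matrices -/
def datOf (B : Matrix (Fin 3) (Fin 6) (ZMod p)) (P : Matrix (Fin 3) (Fin 4) (ZMod p)) : M7.Dat p where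
  β := LinearMap.mk₂ (ZMod p) (fun x y => B.mulVec (wedge x y))
    (by intro x x' y; rw [wedge_add_left, Matrix.mulVec_add])
    (by intro c x y; rw [wedge_smul_left, Matrix.mulVec_smul])
    (by intro x y y'; rw [wedge_add_right, Matrix.mulVec_add])
    (by intro c x y; rw [wedge_smul_right, Matrix.mulVec_smul])
  alt v := by
    rw [LinearMap.mk₂_apply, wedge_self, Matrix.mulVec_zero]
  π := P.mulVecLin

variable {B : Matrix (Fin 3) (Fin 6) (ZMod p)} {P : Matrix (Fin 3) (Fin 4) (ZMod p)}

/-- the identification with `M7.Grp` -/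
def toGrp : PG p B P ≃ M7.Grp (datOf B P) where
  toFun x := ⟨x.v, x.w⟩
  invFun x := ⟨x.v, x.w⟩
  left_inv _ := rfl
  right_inv _ := rfl

theorem toGrp_mul (x y : PG p B P) : toGrp (x * y) = toGrp x * toGrp y := by
  ext1
  · rfl
  · change x.w + y.w + B.mulVec ((2 : ZMod p)⁻¹ • wedge x.v y.v) + P.mulVec (carry x.v y.v) =
      x.w + y.w + (2 : ZMod p)⁻¹ • B.mulVec (wedge x.v y.v) + P.mulVec (M7.carry x.v y.v)
    rw [Matrix.mulVec_smul]
    rfl

instance : Group (PG p B P) := Group.ofLeftAxioms
  (by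
    intro x y z
    apply toGrp.injective
    rw [toGrp_mul, toGrp_mul, toGrp_mul, toGrp_mul, mul_assoc])
  (by
    intro x
    apply toGrp.injective
    rw [toGrp_mul]
    exact one_mul (toGrp x))
  (by
    intro x
    apply toGrp.injective
    rw [toGrp_mul]
    exact inv_mul_cancel (toGrp x))

/-- the isomorphism with `M7.Grp` -/
def toGrpE : PG p B P ≃* M7.Grp (datOf B P) where
  toEquiv := toGrp
  map_mul' := toGrp_mul

end MP_02e52a.Fin
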