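import Pool.Agent.Lib.MP_02e52a_al.Fin.Count

/-!
# The number of groups: assembly
-/

namespace MP_02e52a.Fin

open MP_02e52a

variable {p : ℕ} [Fact p.Prime]

/-- `s` is a system of representatives (with `n` elements) of the family `c` -/
def Reps {T : Type*} (c : T → Par p) (s : Finset (Par p)) (n : ℕ) : Prop :=
  s.card = n ∧ (∀ x ∈ s, x.Ok ∧ ∃ t, x = c t) ∧ (∀ x ∈ s, ∀ y ∈ s, x.Rel y → x = y) ∧
    ∀ t, (c t).Ok → ∃ x ∈ s, (c t).Rel x

theorem exists_reps (hp : p ≠ 2) {T : Type*} [Finite T] (c : T → Par p) : ∃ s, Reps c s (num c) := by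
  classical
  have hr := rel_equiv_pull hp c
  set r : {x : T // (c x).Ok} → {x : T // (c x).Ok} → Prop := fun x y => (c x.1).Rel (c y.1) with hrdef
  have : Finite (Quot r) := Finite.of_surjective (Quot.mk r) Quot.mk_surjective
  have : Fintype (Quot r) := Fintype.ofFinite _
  let f : Quot r → Par p := fun q => c (Quot.out q).1
  have hf : ∀ q q', (f q).Rel (f q') → q = q' := by
    intro q q' h
    have h1 : Quot.mk r (Quot.out q) = Quot.mk r (Quot.out q') := Quot.sound h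
    rwa [Quot.out_eq, Quot.out_eq] at h1
  have hinj : Function.Injective f := by
    intro q q' h
    apply hf
    have h1 : (f q).Rel (f q) := hr.refl (Quot.out q)
    rw [← h]
    exact h1
  refine ⟨Finset.univ.image f, ?_, ?_, ?_, ?_⟩
  · rw [Finset.card_image_of_injective _ hinj, Finset.card_univ, ← Nat.card_eq_fintype_card]
    rfl
  · intro x hx
    obtain ⟨q, _, rfl⟩ := Finset.mem_image.1 hx
    exact ⟨(Quot.out q).2, _, rfl⟩
  · intro x hx y hy h
    obtain ⟨q, _, rfl⟩ := Finset.mem_image.1 hx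
    obtain ⟨q', _, rfl⟩ := Finset.mem_image.1 hy
    rw [hf q q' h]
  · intro t ht
    refine ⟨f (Quot.mk r ⟨t, ht⟩), Finset.mem_image_of_mem _ (Finset.mem_univ _), ?_⟩
    have h1 : Quot.mk r ⟨t, ht⟩ = Quot.mk r (Quot.out (Quot.mk r ⟨t, ht⟩)) := (Quot.out_eq _).symm
    rw [Quot.eq, hr.eqvGen_iff] at h1
    exact h1

theorem Reps.union (hp : p ≠ 2) {T T' : Type*} {c : T → Par p} {c' : T' → Par p} {s s' : Finset (Par p)} {n n' : ℕ}
    (h : Reps c s n) (h' : Reps c' s' n') (hc : ∀ t t', ¬ (c t).Rel (c' t')) (hc' : ∀ t t', ¬ (c' t').Rel (c t)) :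
    ∃ s'', Reps (Sum.elim c c') s'' (n + n') := by
  classical
  obtain ⟨h1, h2, h3, h4⟩ := h
  obtain ⟨h1', h2', h3', h4'⟩ := h'
  have hr := rel_equiv (p := p) hp
  refine ⟨s ∪ s', ?_, ?_, ?_, ?_⟩
  · rw [Finset.card_union_of_disjoint, h1, h1']
    rw [Finset.disjoint_left]
    intro x hx hx'
    obtain ⟨ho, t, ht⟩ := h2 x hx
    obtain ⟨_, t', ht'⟩ := h2' x hx'
    apply hc t t'
    rw [← ht, ← ht']
    exact hr.refl ⟨x, ho⟩
  · intro x hx
    rcases Finset.mem_union.1 hx with hx | hx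
    · obtain ⟨ho, t, ht⟩ := h2 x hx
      exact ⟨ho, Sum.inl t, ht⟩
    · obtain ⟨ho, t, ht⟩ := h2' x hx
      exact ⟨ho, Sum.inr t, ht⟩
  · intro x hx y hy hxy
    rcases Finset.mem_union.1 hx with hx | hx <;> rcases Finset.mem_union.1 hy with hy | hy
    · exact h3 x hx y hy hxy
    · obtain ⟨_, t, rfl⟩ := h2 x hx
      obtain ⟨_, t', rfl⟩ := h2' y hy
      exact absurd hxy (hc t t')
    · obtain ⟨_, t, rfl⟩ := h2' x hx
      obtain ⟨_, t', rfl⟩ := h2 y hy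
      exact absurd hxy (hc' t' t)
    · exact h3' x hx y hy hxy
  · rintro (t | t) ht
    · obtain ⟨x, hx, hx'⟩ := h4 t ht
      exact ⟨x, Finset.mem_union_left _ hx, hx'⟩
    · obtain ⟨x, hx, hx'⟩ := h4' t ht
      exact ⟨x, Finset.mem_union_right _ hx, hx'⟩

theorem number (hp : p ≠ 2) : ∃ s : Finset (Par p),
    (3 * s.card = if p % 3 = 1 then 3 * p ^ 5 + 6 * p ^ 4 + 12 * p ^ 3 + 19 * p ^ 2 + 13 * p + 1
      else 3 * p ^ 5 + 6 * p ^ 4 + 12 * p ^ 3 + 19 * p ^ 2 + 16 * p + 9) ∧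
    (∀ x ∈ s, x.Ok) ∧ (∀ x ∈ s, ∀ y ∈ s, x.Rel y → x = y) ∧ ∀ y : Par p, y.Ok → ∃ x ∈ s, y.Rel x := by
  obtain ⟨sM, hM⟩ := exists_reps hp (cM (p := p))
  obtain ⟨sF, hF⟩ := exists_reps hp (cF (p := p))
  obtain ⟨sD, hD⟩ := exists_reps hp (cD (p := p))
  obtain ⟨sH1, hH1⟩ := exists_reps hp (cH1 (p := p))
  obtain ⟨sH2, hH2⟩ := exists_reps hp (cH2 (p := p))
  obtain ⟨sH3, hH3⟩ := exists_reps hp (cH3 (p := p))
  obtain ⟨s1, h1⟩ := hH2.union hp hH3 (fun _ _ h => h) (fun _ _ h => h)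
  obtain ⟨s2, h2⟩ := hH1.union hp h1 (by rintro t (t' | t') h <;> exact h) (by rintro t (t' | t') h <;> exact h)
  obtain ⟨s3, h3⟩ := hD.union hp h2 (by rintro t (t' | t' | t') h <;> exact h)
    (by rintro t (t' | t' | t') h <;> exact h)
  obtain ⟨s4, h4⟩ := hF.union hp h3 (by rintro t (t' | t' | t' | t') h <;> exact h)
    (by rintro t (t' | t' | t' | t') h <;> exact h)
  obtain ⟨s, h⟩ := hM.union hp h4 (by rintro t (t' | t' | t' | t' | t') h <;> exact h)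
    (by rintro t (t' | t' | t' | t' | t') h <;> exact h)
  obtain ⟨k1, k2, k3, k4⟩ := h
  refine ⟨s, ?_, fun x hx => (k2 x hx).1, k3, ?_⟩
  · rw [k1]
    have e1 := num_M (p := p) hp
    have e2 := num_F (p := p) hp
    have e3 := num_D (p := p) hp
    have e4 := num_H1 (p := p) hp
    have e5 := num_H2 (p := p) hp
    have e6 := num_H3 (p := p) hp
    have hpp := pp (p := p)
    have h24 : p ^ 2 ≤ p ^ 4 := Nat.pow_le_pow_right (by omega) (by norm_num)
    have h12 : 1 ≤ p ^ 2 := Nat.one_le_pow _ _ (by omega)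
    have e7 : num (cF (p := p)) + num (cH1 (p := p)) = p ^ 4 - p ^ 2 := by omega
    have e8 : (p + 1) * p ^ 2 = p ^ 3 + p ^ 2 := by ring
    rw [e8] at e5
    split_ifs at e1 e3 e6 ⊢ <;> omega
  · intro y hy
    cases y with
    | M P => exact k4 (Sum.inl P) hy
    | F A => exact k4 (Sum.inr (Sum.inl A)) hy
    | D α ε φ => exact k4 (Sum.inr (Sum.inr (Sum.inl ![α, ε, φ]))) hy
    | H1 a b c d => exact k4 (Sum.inr (Sum.inr (Sum.inr (Sum.inl ![a, b, c, d])))) hy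
    | H2 a b c d => exact k4 (Sum.inr (Sum.inr (Sum.inr (Sum.inr (Sum.inl ![a, b, c, d]))))) hy
    | H3 a b c d s t u =>
      exact k4 (Sum.inr (Sum.inr (Sum.inr (Sum.inr (Sum.inr ![a, b, c, d, s, t, u]))))) hy

end MP_02e52a.Fin
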