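import Pool.Agent.Lib.MP_02e52a_al.Fin.GroupInst

/-!
# The parameters of the classification
-/

namespace MP_02e52a.Fin

/-- The `3 × 2` matrix of the columns `0` and `2`. -/
def ev {p : ℕ} (P : Matrix (Fin 3) (Fin 4) (ZMod p)) : Matrix (Fin 3) (Fin 2) (ZMod p) :=
  !![P 0 0, P 0 2; P 1 0, P 1 2; P 2 0, P 2 2]

/-- The `3 × 2` matrix of the columns `1` and `3`. -/
def od {p : ℕ} (P : Matrix (Fin 3) (Fin 4) (ZMod p)) : Matrix (Fin 3) (Fin 2) (ZMod p) :=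
  !![P 0 1, P 0 3; P 1 1, P 1 3; P 2 1, P 2 3]

/-- The second symmetric power of `a`. -/
def sym2 {p : ℕ} (a : Matrix (Fin 2) (Fin 2) (ZMod p)) : Matrix (Fin 3) (Fin 3) (ZMod p) :=
  !![a 0 0 ^ 2, a 0 1 ^ 2, a 0 0 * a 0 1; a 1 0 ^ 2, a 1 1 ^ 2, a 1 0 * a 1 1;
    2 * a 0 0 * a 1 0, 2 * a 0 1 * a 1 1, a 0 0 * a 1 1 + a 0 1 * a 1 0]

/-- `T ↦ sym2 a * T * adj a` maps the span of `ev P`, `od P` into the span of `ev P'`, `od P'`. -/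
def Maps {p : ℕ} (a : Matrix (Fin 2) (Fin 2) (ZMod p)) (P P' : Matrix (Fin 3) (Fin 4) (ZMod p)) : Prop :=
  ∃ x y z t : ZMod p, sym2 a * ev P * a.adjugate = x • ev P' + y • od P' ∧
    sym2 a * od P * a.adjugate = z • ev P' + t • od P'

/-- Parameters: six families. -/
inductive Par (p : ℕ)
  | M (P : Matrix (Fin 3) (Fin 4) (ZMod p))
  | F (A : Matrix (Fin 2) (Fin 2) (ZMod p))
  | D (α ε φ : ZMod p)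
  | H1 (a b c d : ZMod p)
  | H2 (a b c d : ZMod p)
  | H3 (a b c d s t u : ZMod p)

/-- The commutator matrix of a parameter (`ν` is a fixed non-square). -/
def Par.B {p : ℕ} (ν : ZMod p) : Par p → Matrix (Fin 3) (Fin 6) (ZMod p)
  | .M _ => !![1, 0, 0, 0, 0, 0; 0, 0, 0, 0, 0, 1; 0, 0, 1, -1, 0, 0]
  | .F _ => !![0, 1, 0, 0, ν, 0; 0, 0, 1, 1, 0, 0; 1, 0, 0, 0, 0, 0]
  | .D _ _ _ => !![0, 1, 0, 0, 0, 0; 0, 0, 1, 1, 0, 0; 1, 0, 0, 0, 0, 0]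
  | _ => !![1, 0, 0, 0, 0, 0; 0, 0, 0, 0, 0, 1; 0, 1, 0, 0, 0, 0]

/-- The power matrix of a parameter. -/
def Par.P {p : ℕ} : Par p → Matrix (Fin 3) (Fin 4) (ZMod p)
  | .M P => P
  | .F A => !![A 0 0, A 0 1, 1, 0; A 1 0, A 1 1, 0, 1; 0, 0, 1, 0]
  | .D α ε φ => !![α, 1, 0, 0; ε, 0, φ, 0; 0, 0, 0, 1]
  | .H1 a b c d => !![a, 1, b, 0; c, 0, d, 1; 0, 1, 0, 1]
  | .H2 a b c d => !![a, 0, b, 0; c, 0, d, 1; 0, 1, 0, 1]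
  | .H3 a b c d s t u => !![a, s, b, t; c, 0, d, u; 0, 1, 0, 0]

/-- The admissible parameters. -/
def Par.Ok {p : ℕ} : Par p → Prop
  | .M P => (∀ x y : ZMod p, x • ev P + y • od P = 0 → x = 0 ∧ y = 0) ∧
      ∀ a : Matrix (Fin 2) (Fin 2) (ZMod p), a.det ≠ 0 → Maps a P P → a 0 1 = 0 ∧ a 1 0 = 0 ∧ a 0 0 = a 1 1
  | .F A => A 0 0 ≠ 0 ∨ A 1 1 ≠ 0
  | .D α ε φ => φ ≠ 0 ∧ (α ≠ 0 ∨ ε ≠ 0 ∨ ∀ r : ZMod p, r ^ 3 = 1 → r = 1)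
  | .H1 a b c d => a + d ≠ 0 ∨ b + c ≠ 0
  | .H2 a _ _ d => a ≠ 0 ∨ d ≠ 0
  | .H3 a b c d s t u => (t ≠ 0 ∨ u ≠ 0) ∧
      ∀ a1 a2 c2 : ZMod p, a1 ≠ 0 → a2 ≠ 0 → c2 ≠ 0 → a1 * a2 * a = a → a1 * s = s → a2 * u = u →
        a1 ^ 2 * a2 * t = c2 * t → a2 * c2 * c = a1 * c → a1 ^ 2 * a2 * (b * u - d * t) = b * u - d * t →
        a1 = 1 ∧ a2 = 1 ∧ c2 = 1

/-- Equivalence of admissible parameters. -/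
def Par.Rel {p : ℕ} : Par p → Par p → Prop
  | .M P, .M P' => ∃ a : Matrix (Fin 2) (Fin 2) (ZMod p), a.det ≠ 0 ∧ Maps a P P'
  | .F A, .F A' => A' = A ∨ A' = !![-A 0 0, A 0 1; A 1 0, -A 1 1]
  | .D α ε φ, .D α' ε' φ' => ∃ r : ZMod p, r ≠ 0 ∧ α' = r ^ 2 * α ∧ ε' = r ^ 4 * ε ∧ φ' = r ^ 3 * φ
  | .H1 a b c d, .H1 a' b' c' d' =>
      (a' = a ∧ b' = b ∧ c' = c ∧ d' = d) ∨ (a' = -d ∧ b' = -c ∧ c' = -b ∧ d' = -a)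
  | .H2 a b c d, .H2 a' b' c' d' => ∃ r : ZMod p, r ≠ 0 ∧ a' = r * a ∧ b' = r ^ 2 * b ∧ c' = c ∧ d' = r * d
  | .H3 a b c d s t u, .H3 a' b' c' d' s' t' u' =>
      ∃ a1 a2 c2 r : ZMod p, a1 ≠ 0 ∧ a2 ≠ 0 ∧ c2 ≠ 0 ∧ a' = a1 * a2 * a ∧ s' = a1 * s ∧ u' = a2 * u ∧
        c2 * t' = a1 ^ 2 * a2 * t ∧ a1 * c' = a2 * c2 * c ∧ a2 * b' + t' * r = a1 ^ 2 * a2 * b ∧
        a2 * d' + u' * r = a2 * c2 * d
  | _, _ => False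

/-- The group of a parameter. -/
abbrev Par.G {p : ℕ} (ν : ZMod p) (x : Par p) : Type := PG p (x.B ν) x.P

end MP_02e52a.Fin
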